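import Pool.Agent.R508.GaussProp

set_option autoImplicit false

/-!
# Averages of multiplicative functions on far-shifted Gaussian squares do not converge

For every `ε > 0` we construct a completely multiplicative function `f` on the Gaussian integers with
values in `{0, 1}` whose averages over the shifted squares `⌊N ^ (1 + ε)⌋ + Q_N` do not converge.

Idea. Comparing the sum of `log (Norm n)` over the far square with the same sum over the near square
`N + Q_N`, prime power by prime power, one sees that for every fixed `g` a proportion at least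
`c = ε / (6 (1 + ε))` of the elements of the far square has a prime factor of norm `> g N ^ 2`. The
function `f` is the indicator function of the elements divisible by no prime of a sparse set `P`; the set
`P` is a union of finite sets `P_k`, where `P_k` contains one such prime factor of each of those elements
at the scale `N_k`. So the averages at the scales `N_k` are at most `1 - c`, while at suitable
intermediate scales they are at least `1 - c / 2`, because the sum of `1 / Norm` over `P` is small.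
-/

namespace Pool.Agent.Results.MP_acc225_nt.FarSquaresDiverge

open Filter Topology Pool.Agent.R508.GI

/-- The square `Q_N = {n : |Re n| < N, |Im n| < N}`. -/
noncomputable def Q (N : ℕ) : Finset GaussianInt :=
  ((Finset.Ioo (-(N : ℤ)) N) ×ˢ (Finset.Ioo (-(N : ℤ)) N)).image
    (fun p => (⟨p.1, p.2⟩ : GaussianInt))

/-- The shifted square `⌊N ^ (1 + ε)⌋ + Q_N`. -/
noncomputable def Phi (ε : ℝ) (N : ℕ) : Finset GaussianInt :=
  (Q N).image (fun n => ((⌊(N : ℝ) ^ (1 + ε)⌋ : ℤ) : GaussianInt) + n)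

theorem Phi_eq (ε : ℝ) (N : ℕ) : Phi ε N = Box (sh ε N) N := by
  ext z
  rw [mem_Box]
  simp only [Phi, Q, Finset.mem_image, Finset.mem_product, Finset.mem_Ioo, Prod.exists]
  constructor
  · rintro ⟨w, ⟨a, b, ⟨⟨h1, h2⟩, h3, h4⟩, rfl⟩, rfl⟩
    simp only [Zsqrtd.re_add, Zsqrtd.im_add, Zsqrtd.re_intCast, Zsqrtd.im_intCast, abs_lt, sh]
    refine ⟨⟨?_, ?_⟩, ?_, ?_⟩ <;> omega
  · rintro ⟨h1, h2⟩
    rw [abs_lt] at h1 h2
    refine ⟨⟨z.re - sh ε N, z.im⟩, ⟨z.re - sh ε N, z.im, ⟨h1, h2⟩, rfl⟩, ?_⟩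
    apply Zsqrtd.ext
    · simp [sh]
    · simp

/-- the elements of a square divisible by an element of `F` -/
noncomputable def hit (F : Set GaussianInt) (c : ℤ) (N : ℕ) : Finset GaussianInt :=
  open Classical in (Box c N).filter (fun n => ∃ π : GaussianInt, π ∈ F ∧ π ∣ n)

theorem mem_hit {F : Set GaussianInt} {c : ℤ} {N : ℕ} {n : GaussianInt} :
    n ∈ hit F c N ↔ n ∈ Box c N ∧ ∃ π : GaussianInt, π ∈ F ∧ π ∣ n := by
  classical
  unfold hit
  rw [Finset.mem_filter]

theorem hit_density (F : Finset GaussianInt) (hF : ∀ π ∈ F, π ≠ 0) {τ : ℝ}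
    (hτ : ∑ π ∈ F, 1 / (π.norm : ℝ) < τ) :
    ∀ᶠ N : ℕ in atTop, ∀ c : ℤ, ((hit F c N).card : ℝ) ≤ τ * (Box c N).card := by
  classical
  -- radii
  have hr : ∀ π : GaussianInt, ∃ r : ℕ, π.norm ≤ (r : ℤ) ^ 2 := by
    intro π
    refine ⟨π.norm.natAbs, ?_⟩
    have := GaussianInt.norm_nonneg π
    rw [GaussianInt.abs_natCast_norm]
    nlinarith
  choose r hr using hr
  have hlim : Tendsto (fun N : ℕ => ∑ π ∈ F, 1 / (π.norm : ℝ) *
      ((2 * (N : ℝ) + 2 * r π - 1) / (2 * N - 1)) ^ 2) atTop (𝓝 (∑ π ∈ F, 1 / (π.norm : ℝ))) := by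
    apply tendsto_finsetSum
    intro π _
    have h1 : Tendsto (fun N : ℕ => (2 * (N : ℝ) + 2 * r π - 1) / (2 * N - 1)) atTop (𝓝 1) := by
      have h2 : Tendsto (fun N : ℕ => 1 + 2 * (r π : ℝ) / (2 * N - 1)) atTop (𝓝 (1 + 0)) := by
        apply Tendsto.add tendsto_const_nhds
        apply Tendsto.div_atTop tendsto_const_nhds
        apply tendsto_atTop_add_const_right
        exact Tendsto.const_mul_atTop (by norm_num) tendsto_natCast_atTop_atTop
      rw [add_zero] at h2
      apply h2.congr'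
      filter_upwards [eventually_ge_atTop 1] with N hN
      have hN' : (1 : ℝ) ≤ N := by exact_mod_cast hN
      have : (2 * (N : ℝ) - 1) ≠ 0 := by linarith
      field_simp
      ring
    have h3 := (h1.pow 2).const_mul (1 / (π.norm : ℝ))
    simpa using h3
  have hev := hlim.eventually_lt_const hτ
  filter_upwards [hev, eventually_ge_atTop 1] with N hev hN c
  have hN' : (1 : ℝ) ≤ N := by exact_mod_cast hN
  have hB : ((Box c N).card : ℝ) = (2 * N - 1) ^ 2 := by exact_mod_cast card_Box c hN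
  have h1 : (hit F c N).card ≤ ∑ π ∈ F, (Mul π c N).card := by
    calc (hit F c N).card ≤ (F.biUnion (fun π => Mul π c N)).card := by
          apply Finset.card_le_card
          intro n hn
          rw [mem_hit] at hn
          obtain ⟨hn, π, hπ, hd⟩ := hn
          rw [Finset.mem_biUnion]
          exact ⟨π, hπ, mem_Mul.2 ⟨mem_Box.1 hn, hd⟩⟩
      _ ≤ _ := Finset.card_biUnion_le
  have h2 : ((hit F c N).card : ℝ) ≤ ∑ π ∈ F, ((Mul π c N).card : ℝ) := by exact_mod_cast h1
  have h3 : ∑ π ∈ F, ((Mul π c N).card : ℝ) ≤ (∑ π ∈ F, 1 / (π.norm : ℝ) *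
      ((2 * (N : ℝ) + 2 * r π - 1) / (2 * N - 1)) ^ 2) * (2 * N - 1) ^ 2 := by
    rw [Finset.sum_mul]
    apply Finset.sum_le_sum
    intro π hπ
    have h4 := cnt_upper (hF π hπ) (hr π) c hN
    have h5 : ((Mul π c N).card : ℝ) * (π.norm : ℝ) ≤ (2 * N + 2 * r π - 1) ^ 2 := by
      exact_mod_cast h4
    have h6 : (0 : ℝ) < (π.norm : ℝ) := by
      exact_mod_cast GaussianInt.norm_pos.2 (hF π hπ)
    have h7 : (2 * (N : ℝ) - 1) ≠ 0 := by linarith
    have h8 : 1 / (π.norm : ℝ) * ((2 * (N : ℝ) + 2 * r π - 1) / (2 * N - 1)) ^ 2 * (2 * N - 1) ^ 2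
        = (2 * N + 2 * r π - 1) ^ 2 / π.norm := by
      field_simp
    rw [h8, le_div_iff₀ h6]
    exact h5
  rw [hB]
  calc _ ≤ _ := h2
    _ ≤ _ := h3
    _ ≤ _ := mul_le_mul_of_nonneg_right hev.le (by positivity)

/-- the inductive step of the construction -/
theorem step {ε : ℝ} (hε : 0 < ε) {τ : ℝ} (F : Finset GaussianInt) (hF : ∀ π ∈ F, Prime π)
    (hτ : ∑ π ∈ F, 1 / (π.norm : ℝ) < τ) (L : ℕ) :
    ∃ (F' : Finset GaussianInt) (N N' : ℕ), F ⊆ F' ∧ (∀ π ∈ F', Prime π) ∧
      ∑ π ∈ F', 1 / (π.norm : ℝ) < τ ∧ (∀ π ∈ F', π ∉ F → (L : ℤ) < π.norm) ∧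
      L + 1 ≤ N ∧ L + 1 ≤ N' ∧
      ε / (6 * (1 + ε)) * ((Box (sh ε N) N).card : ℝ) ≤ (hit F' (sh ε N) N).card ∧
      ((hit F' (sh ε N') N').card : ℝ) ≤ τ * (Box (sh ε N') N').card := by
  classical
  obtain ⟨g, hg⟩ := exists_nat_gt (4 / (τ - ∑ π ∈ F, 1 / (π.norm : ℝ)))
  have hpos : 0 < τ - ∑ π ∈ F, 1 / (π.norm : ℝ) := by linarith
  have hg0 : (0 : ℝ) < g := lt_trans (by positivity) hg
  have hg1 : 1 ≤ g := by
    have : 0 < g := by exact_mod_cast hg0
    omega
  obtain ⟨N, hN1, hN2⟩ := ((prop_large hε g hg1).and (eventually_ge_atTop (L + 1))).exists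
  have hSS : ∀ n ∈ SS (g * N ^ 2) (sh ε N) N, ∃ π : GaussianInt, Prime π ∧
      ((g * N ^ 2 : ℕ) : ℤ) < π.norm ∧ π ∣ n := by
    intro n hn
    unfold SS at hn
    rw [Finset.mem_filter] at hn
    exact hn.2
  choose! pf hpf using hSS
  set G := (SS (g * N ^ 2) (sh ε N) N).image pf with hG
  have hGp : ∀ π ∈ G, Prime π ∧ ((g * N ^ 2 : ℕ) : ℤ) < π.norm := by
    intro π hπ
    rw [hG, Finset.mem_image] at hπ
    obtain ⟨n, hn, rfl⟩ := hπ
    exact ⟨(hpf n hn).1, (hpf n hn).2.1⟩
  have hN0 : (1 : ℝ) ≤ N := by exact_mod_cast (by omega : 1 ≤ N)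
  have hGcard : (G.card : ℝ) ≤ 4 * N ^ 2 := by
    have h1 : G.card ≤ (Box (sh ε N) N).card :=
      Finset.card_image_le.trans (Finset.card_le_card (by unfold SS; exact Finset.filter_subset _ _))
    have h2 : ((Box (sh ε N) N).card : ℝ) = (2 * N - 1) ^ 2 := by
      exact_mod_cast card_Box (sh ε N) (by omega : 1 ≤ N)
    have h3 : (G.card : ℝ) ≤ (Box (sh ε N) N).card := by exact_mod_cast h1
    rw [h2] at h3
    nlinarith
  have hGsum : ∑ π ∈ G, 1 / (π.norm : ℝ) ≤ 4 / g := by
    calc ∑ π ∈ G, 1 / (π.norm : ℝ) ≤ ∑ π ∈ G, 1 / ((g : ℝ) * N ^ 2) := by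
          apply Finset.sum_le_sum
          intro π hπ
          apply one_div_le_one_div_of_le (by positivity)
          have := (hGp π hπ).2.le
          exact_mod_cast this
      _ = G.card * (1 / ((g : ℝ) * N ^ 2)) := by rw [Finset.sum_const, nsmul_eq_mul]
      _ ≤ 4 * N ^ 2 * (1 / ((g : ℝ) * N ^ 2)) :=
          mul_le_mul_of_nonneg_right hGcard (by positivity)
      _ = 4 / g := by field_simp
  set F' := F ∪ G with hF'
  have hsum : ∑ π ∈ F', 1 / (π.norm : ℝ) < τ := by
    have h1 : ∑ π ∈ F', 1 / (π.norm : ℝ) ≤ ∑ π ∈ F, 1 / (π.norm : ℝ) + ∑ π ∈ G, 1 / (π.norm : ℝ) := by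
      rw [hF', ← Finset.sum_union_inter]
      have : 0 ≤ ∑ π ∈ F ∩ G, 1 / (π.norm : ℝ) := by
        apply Finset.sum_nonneg
        intro π _
        have : (0 : ℝ) ≤ (π.norm : ℝ) := by exact_mod_cast GaussianInt.norm_nonneg π
        positivity
      linarith
    have h2 : 4 / (g : ℝ) < τ - ∑ π ∈ F, 1 / (π.norm : ℝ) := by
      rw [div_lt_iff₀ hg0]
      rw [div_lt_iff₀ hpos] at hg
      linarith
    linarith
  have hF'p : ∀ π ∈ F', Prime π := by
    intro π hπ
    rw [hF', Finset.mem_union] at hπ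
    rcases hπ with h | h
    · exact hF π h
    · exact (hGp π h).1
  obtain ⟨N', hN'1, hN'2⟩ := ((hit_density F' (fun π hπ => (hF'p π hπ).ne_zero) hsum).and
    (eventually_ge_atTop (L + 1))).exists
  refine ⟨F', N, N', Finset.subset_union_left, hF'p, hsum, ?_, hN2, hN'2, ?_, hN'1 _⟩
  · intro π hπ hπF
    rw [hF', Finset.mem_union] at hπ
    have hπG := hπ.resolve_left hπF
    have h1 := (hGp π hπG).2
    have h2 : L ≤ g * N ^ 2 := by nlinarith
    have h3 : (L : ℤ) ≤ ((g * N ^ 2 : ℕ) : ℤ) := by exact_mod_cast h2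
    exact lt_of_le_of_lt h3 h1
  · refine hN1.trans ?_
    have : (SS (g * N ^ 2) (sh ε N) N).card ≤ (hit F' (sh ε N) N).card := by
      apply Finset.card_le_card
      intro n hn
      rw [mem_hit]
      refine ⟨?_, pf n, ?_, (hpf n hn).2.2⟩
      · unfold SS at hn
        exact (Finset.mem_filter.1 hn).1
      · rw [Finset.mem_coe, hF', Finset.mem_union]
        right
        exact Finset.mem_image_of_mem pf hn
    exact_mod_cast this

/-- a state of the construction: a finite set of primes and a threshold -/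
structure St (τ : ℝ) where
  F : Finset GaussianInt
  hp : ∀ π ∈ F, Prime π
  hs : ∑ π ∈ F, 1 / (π.norm : ℝ) < τ
  L : ℕ

theorem next {ε : ℝ} (hε : 0 < ε) {τ : ℝ} (x : St τ) :
    ∃ (y : St τ) (N N' : ℕ), x.F ⊆ y.F ∧ (∀ π ∈ y.F, π ∉ x.F → (x.L : ℤ) < π.norm) ∧
      x.L + 1 ≤ N ∧ x.L + 1 ≤ N' ∧ x.L + 1 ≤ y.L ∧ (∀ n ∈ Box (sh ε N') N', n.norm ≤ (y.L : ℤ)) ∧
      ε / (6 * (1 + ε)) * ((Box (sh ε N) N).card : ℝ) ≤ (hit y.F (sh ε N) N).card ∧
      ((hit y.F (sh ε N') N').card : ℝ) ≤ τ * (Box (sh ε N') N').card := by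
  obtain ⟨F', N, N', h1, h2, h3, h4, h5, h6, h7, h8⟩ := step hε x.F x.hp x.hs x.L
  refine ⟨⟨F', h2, h3, x.L + 1 + ∑ n ∈ Box (sh ε N') N', n.norm.natAbs⟩, N, N', h1, h4, h5, h6,
    by simp, ?_, h7, h8⟩
  intro n hn
  have h9 : n.norm.natAbs ≤ ∑ n ∈ Box (sh ε N') N', n.norm.natAbs :=
    Finset.single_le_sum (f := fun n : GaussianInt => n.norm.natAbs) (fun _ _ => Nat.zero_le _) hn
  simp only
  have := GaussianInt.norm_nonneg n
  omega

/-- **For every `ε > 0` there is a completely multiplicative `f` with values in `{0, 1}` whose averages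
over the shifted squares `⌊N ^ (1 + ε)⌋ + Q_N` do not converge.** -/
theorem result : ∀ ε : ℝ, 0 < ε →
    (∀ N : ℕ, 1 ≤ N → (0 : GaussianInt) ∉ Phi ε N ∧ (Phi ε N).card = (2 * N - 1) ^ 2) ∧
    ∃ f : GaussianInt → ℝ,
      (∀ m n : GaussianInt, m ≠ 0 → n ≠ 0 → f (m * n) = f m * f n) ∧
      (∀ n : GaussianInt, f n = 0 ∨ f n = 1) ∧
      ¬ ∃ ℓ : ℝ, Tendsto (fun N : ℕ => (∑ n ∈ Phi ε N, f n) / ((Phi ε N).card : ℝ)) atTop (𝓝 ℓ) := by
  classical
  intro ε hε
  have hzero : ∀ N : ℕ, 1 ≤ N → ∀ n ∈ Box (sh ε N) N, n ≠ 0 := by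
    intro N hN n hn h0
    rw [mem_Box, h0] at hn
    have h1 : (N : ℤ) ≤ sh ε N := by
      unfold sh
      rw [Int.le_floor]
      have hN' : (1 : ℝ) ≤ N := by exact_mod_cast hN
      calc (((N : ℕ) : ℤ) : ℝ) = (N : ℝ) ^ (1 : ℝ) := by rw [Real.rpow_one]; simp
        _ ≤ (N : ℝ) ^ (1 + ε) := Real.rpow_le_rpow_of_exponent_le hN' (by linarith)
    have h2 := hn.1
    simp only [Zsqrtd.re_zero] at h2
    rw [abs_lt] at h2
    omega
  refine ⟨?_, ?_⟩
  · intro N hN
    rw [Phi_eq]
    refine ⟨fun h => hzero N hN 0 h rfl, ?_⟩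
    have h1 := card_Box (sh ε N) hN
    have h2 : ((2 * N - 1 : ℕ) : ℤ) = 2 * N - 1 := by omega
    rw [← h2] at h1
    exact_mod_cast h1
  set c : ℝ := ε / (6 * (1 + ε)) with hc
  have hc0 : 0 < c := by positivity
  set τ : ℝ := c / 2 with hτ
  have hτ0 : 0 < τ := by positivity
  choose nx NA NB h1 h2 h3 h4 h5 h6 h7 h8 using fun x : St τ => next hε x
  let x0 : St τ := ⟨∅, by simp, by simpa using hτ0, 0⟩
  let x : ℕ → St τ := fun k => Nat.rec x0 (fun _ y => nx y) k
  have hx : ∀ k, x (k + 1) = nx (x k) := fun k => rfl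
  have hLk : ∀ k, k ≤ (x k).L := by
    intro k
    induction k with
    | zero => exact Nat.zero_le _
    | succ k ih =>
      have := h5 (x k)
      rw [hx]; omega
  have hLmono : ∀ j k, j ≤ k → (x j).L ≤ (x k).L := by
    intro j k hjk
    induction k, hjk using Nat.le_induction with
    | base => exact le_rfl
    | succ k _ ih =>
      have := h5 (x k)
      rw [hx]; omega
  have hFmono : ∀ j k, j ≤ k → (x j).F ⊆ (x k).F := by
    intro j k hjk
    induction k, hjk using Nat.le_induction with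
    | base => exact Finset.Subset.refl _
    | succ k _ ih =>
      rw [hx]; exact ih.trans (h1 (x k))
  have hFnew : ∀ j k, j ≤ k → ∀ π ∈ (x k).F, π ∉ (x j).F → ((x j).L : ℤ) < π.norm := by
    intro j k hjk
    induction k, hjk using Nat.le_induction with
    | base => intro π h h'; exact absurd h h'
    | succ k hk ih =>
      intro π hπ hπj
      by_cases hπk : π ∈ (x k).F
      · exact ih π hπk hπj
      · rw [hx] at hπ
        have ha := h2 (x k) π hπ hπk
        have hb : ((x j).L : ℤ) ≤ (x k).L := by exact_mod_cast hLmono j k hk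
        exact lt_of_le_of_lt hb ha
  let P : Set GaussianInt := {π | ∃ k, π ∈ (x k).F}
  let f : GaussianInt → ℝ := fun n => if ∃ π : GaussianInt, π ∈ P ∧ π ∣ n then 0 else 1
  have hPp : ∀ π ∈ P, Prime π := by
    rintro π ⟨k, hk⟩
    exact (x k).hp π hk
  -- sums of f
  have hfsum : ∀ (s : ℤ) (N : ℕ), ∑ n ∈ Box s N, f n = (Box s N).card - (hit P s N).card := by
    intro s N
    have ha : ∀ n, f n = 1 - (if ∃ π : GaussianInt, π ∈ P ∧ π ∣ n then 1 else 0) := by
      intro n
      simp only [f]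
      split_ifs <;> norm_num
    rw [Finset.sum_congr rfl fun n _ => ha n, Finset.sum_sub_distrib, Finset.sum_const,
      nsmul_eq_mul, mul_one, Finset.sum_boole]
    congr 3
  refine ⟨f, ?_, ?_, ?_⟩
  · intro m n _ _
    have key : (∃ π : GaussianInt, π ∈ P ∧ π ∣ m * n) ↔
        (∃ π : GaussianInt, π ∈ P ∧ π ∣ m) ∨ (∃ π : GaussianInt, π ∈ P ∧ π ∣ n) := by
      constructor
      · rintro ⟨π, hπ, hd⟩
        rcases (hPp π hπ).dvd_or_dvd hd with h | h
        · left; exact ⟨π, hπ, h⟩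
        · right; exact ⟨π, hπ, h⟩
      · rintro (⟨π, hπ, hd⟩ | ⟨π, hπ, hd⟩)
        · exact ⟨π, hπ, hd.mul_right n⟩
        · exact ⟨π, hπ, hd.mul_left m⟩
    simp only [f]
    by_cases ha : ∃ π : GaussianInt, π ∈ P ∧ π ∣ m
    · rw [if_pos ha, if_pos (key.2 (Or.inl ha)), zero_mul]
    · by_cases hb : ∃ π : GaussianInt, π ∈ P ∧ π ∣ n
      · rw [if_pos hb, if_pos (key.2 (Or.inr hb)), mul_zero]
      · rw [if_neg ha, if_neg hb, if_neg (fun h => (key.1 h).elim ha hb), mul_one]
  · intro n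
    simp only [f]
    split_ifs
    · left; rfl
    · right; rfl
  · rintro ⟨ℓ, hℓ⟩
    simp only [Phi_eq] at hℓ
    -- the scales
    have hNA : Tendsto (fun k => NA (x k)) atTop atTop := by
      apply tendsto_atTop_mono (fun k => ?_) tendsto_id
      have ha := h3 (x k)
      have hb := hLk k
      simp only [id]
      omega
    have hNB : Tendsto (fun k => NB (x k)) atTop atTop := by
      apply tendsto_atTop_mono (fun k => ?_) tendsto_id
      have ha := h4 (x k)
      have hb := hLk k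
      simp only [id]
      omega
    have hcard : ∀ N : ℕ, 1 ≤ N → (0 : ℝ) < (Box (sh ε N) N).card := by
      intro N hN
      have ha : ((Box (sh ε N) N).card : ℝ) = (2 * N - 1) ^ 2 := by
        exact_mod_cast card_Box (sh ε N) hN
      have hN' : (1 : ℝ) ≤ N := by exact_mod_cast hN
      rw [ha]
      have : (0 : ℝ) < 2 * N - 1 := by linarith
      positivity
    have hA : ℓ ≤ 1 - c := by
      apply le_of_tendsto (hℓ.comp hNA)
      filter_upwards with k
      have hpos := hcard (NA (x k)) (by have := h3 (x k); omega)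
      simp only [Function.comp]
      rw [div_le_iff₀ hpos, hfsum]
      have ha := h7 (x k)
      have hb : (hit (nx (x k)).F (sh ε (NA (x k))) (NA (x k))).card ≤
          (hit P (sh ε (NA (x k))) (NA (x k))).card := by
        apply Finset.card_le_card
        intro n hn
        rw [mem_hit] at hn ⊢
        obtain ⟨hn, π, hπ, hd⟩ := hn
        exact ⟨hn, π, ⟨k + 1, hπ⟩, hd⟩
      have hb' : ((hit (nx (x k)).F (sh ε (NA (x k))) (NA (x k))).card : ℝ) ≤
          (hit P (sh ε (NA (x k))) (NA (x k))).card := by exact_mod_cast hb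
      linarith
    have hB : 1 - τ ≤ ℓ := by
      apply ge_of_tendsto (hℓ.comp hNB)
      filter_upwards with k
      have hpos := hcard (NB (x k)) (by have := h4 (x k); omega)
      simp only [Function.comp]
      rw [le_div_iff₀ hpos, hfsum]
      have ha := h8 (x k)
      have hb : (hit P (sh ε (NB (x k))) (NB (x k))).card ≤
          (hit (nx (x k)).F (sh ε (NB (x k))) (NB (x k))).card := by
        apply Finset.card_le_card
        intro n hn
        rw [mem_hit] at hn ⊢
        obtain ⟨hn, π, ⟨j, hj⟩, hd⟩ := hn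
        refine ⟨hn, π, ?_, hd⟩
        have hn0 : n ≠ 0 := hzero _ (by have := h4 (x k); omega) n hn
        have hle : π.norm ≤ ((nx (x k)).L : ℤ) := (norm_le_of_dvd hd hn0).trans (h6 (x k) n hn)
        rw [Finset.mem_coe]
        by_contra hcon
        rcases le_or_gt j (k + 1) with hjk | hjk
        · exact hcon (hFmono j (k + 1) hjk hj)
        · have hlt := hFnew (k + 1) j hjk.le π hj hcon
          have : ((x (k + 1)).L : ℤ) = ((nx (x k)).L : ℤ) := rfl
          omega
      have hb' : ((hit P (sh ε (NB (x k))) (NB (x k))).card : ℝ) ≤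
          (hit (nx (x k)).F (sh ε (NB (x k))) (NB (x k))).card := by exact_mod_cast hb
      linarith
    have : c ≤ τ := by linarith
    rw [hτ] at this
    linarith

end Pool.Agent.Results.MP_acc225_nt.FarSquaresDiverge
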